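import Pool.Agent.W229.HD.Stm

set_option autoImplicit false

namespace Pool.Agent.W347.HD

open Pool.Agent.W229.HD

theorem dt_add (K v w : E3) : dt K (v + w) = dt K v + dt K w := by
  simp [dt, Fin.sum_univ_three]; ring

theorem dt_smul (K v : E3) (c : ℂ) : dt K (c • v) = c * dt K v := by
  simp [dt, Fin.sum_univ_three]; ring

theorem dt_sub (K v w : E3) : dt K (v - w) = dt K v - dt K w := by
  simp [dt, Fin.sum_univ_three]; ring

theorem cr_add (K v w : E3) : cr K (v + w) = cr K v + cr K w := by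
  ext j; fin_cases j <;> simp [cr] <;> ring

theorem cr_smul (K v : E3) (c : ℂ) : cr K (c • v) = c • cr K v := by
  ext j; fin_cases j <;> simp [cr] <;> ring

theorem cr_sub (K v w : E3) : cr K (v - w) = cr K v - cr K w := by
  ext j; fin_cases j <;> simp [cr] <;> ring

theorem cr_self (K : E3) : cr K K = 0 := by
  ext j; fin_cases j <;> simp [cr] <;> ring

theorem dt_cr (K v : E3) : dt K (cr K v) = 0 := by
  simp [dt, cr, Fin.sum_univ_three]; ring

theorem cr_cr (K v : E3) : cr K (cr K v) = dt K v • K - dt K K • v := by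
  ext j; fin_cases j <;> simp [dt, cr, Fin.sum_univ_three] <;> ring

theorem inner_cr (k : K3) (v w : E3) : inner ℂ (cr (kc k) v) w = - inner ℂ v (cr (kc k) w) := by
  simp [PiLp.inner_apply, cr, kc, Fin.sum_univ_three, map_sub, map_mul]; ring

theorem inner_kc (k : K3) (w : E3) : inner ℂ (kc k) w = dt (kc k) w := by
  simp [PiLp.inner_apply, dt, kc, Fin.sum_univ_three]; ring

theorem inner_kc' (k : K3) (w : E3) : inner ℂ w (kc k) = star (dt (kc k) w) := by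
  rw [← inner_kc, ← inner_conj_symm]; rfl

theorem nm_sq (k : K3) : nm k ^ 2 = ∑ j, (k j : ℝ) ^ 2 := by
  unfold nm
  exact Real.sq_sqrt (Finset.sum_nonneg fun j _ => sq_nonneg _)

theorem nm_pos {k : K3} (hk : k ≠ 0) : 0 < nm k := by
  unfold nm
  apply Real.sqrt_pos.2
  obtain ⟨j, hj⟩ := Function.ne_iff.1 hk
  have h1 : (0 : ℝ) < (k j : ℝ) ^ 2 := by
    have : (k j : ℝ) ≠ 0 := by exact_mod_cast hj
    positivity
  exact lt_of_lt_of_le h1 (Finset.single_le_sum (f := fun j => (k j : ℝ) ^ 2)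
    (fun i _ => sq_nonneg _) (Finset.mem_univ j))

theorem dt_kc (k : K3) : dt (kc k) (kc k) = ((nm k : ℝ) : ℂ) ^ 2 := by
  have h := nm_sq k
  have h2 : ((nm k : ℝ) : ℂ) ^ 2 = ((∑ j, (k j : ℝ) ^ 2 : ℝ) : ℂ) := by
    rw [← h]; push_cast; rfl
  rw [h2]
  simp [dt, kc, Fin.sum_univ_three]
  ring

/-- explicit form -/
theorem hel_eq (s : Bool) (k : K3) (v : E3) : hel s k v =
    (1 / 2 : ℂ) • (v - (dt (kc k) v / ((nm k : ℝ) : ℂ) ^ 2) • kc k
    + (Complex.I * ((sg s : ℝ) : ℂ) / ((nm k : ℝ) : ℂ)) • cr (kc k) v) := by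
  unfold hel
  congr 3
  · push_cast; rfl
  · push_cast; ring_nf

theorem sg_sq (s : Bool) : ((sg s : ℝ) : ℂ) * ((sg s : ℝ) : ℂ) = 1 := by
  cases s <;> simp [sg]

theorem sg_not (s : Bool) : sg (!s) = - sg s := by
  cases s <;> simp [sg]

theorem hel_add (s : Bool) (k : K3) (v w : E3) : hel s k (v + w) = hel s k v + hel s k w := by
  simp only [hel_eq, dt_add, cr_add]
  rw [add_div]
  module

theorem hel_smul (s : Bool) (k : K3) (v : E3) (c : ℂ) : hel s k (c • v) = c • hel s k v := by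
  simp only [hel_eq, dt_smul, cr_smul]
  rw [mul_div_assoc]
  module

theorem dt_hel (s : Bool) {k : K3} (hk : k ≠ 0) (v : E3) : dt (kc k) (hel s k v) = 0 := by
  have hn : ((nm k : ℝ) : ℂ) ≠ 0 := by exact_mod_cast (nm_pos hk).ne'
  rw [hel_eq, dt_smul, dt_add, dt_sub, dt_smul, dt_smul, dt_cr, dt_kc]
  field_simp
  ring

theorem cr_hel (s : Bool) {k : K3} (hk : k ≠ 0) (v : E3) : cr (kc k) (hel s k v) =
    (-(Complex.I * ((sg s * nm k : ℝ) : ℂ))) • hel s k v := by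
  have hn : ((nm k : ℝ) : ℂ) ≠ 0 := by exact_mod_cast (nm_pos hk).ne'
  have hs := sg_sq s
  rw [hel_eq, cr_smul, cr_add, cr_sub, cr_smul, cr_smul, cr_self, cr_cr, dt_kc]
  have e1 : Complex.I * ((sg s : ℝ) : ℂ) / ((nm k : ℝ) : ℂ) * ((nm k : ℝ) : ℂ) ^ 2 =
      Complex.I * ((sg s : ℝ) : ℂ) * ((nm k : ℝ) : ℂ) := by field_simp
  have e2 : (Complex.I * ((sg s : ℝ) : ℂ) * ((nm k : ℝ) : ℂ)) *
      (dt (kc k) v / ((nm k : ℝ) : ℂ) ^ 2) =
      Complex.I * ((sg s : ℝ) : ℂ) / ((nm k : ℝ) : ℂ) * dt (kc k) v := by field_simp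
  have e3 : (Complex.I * ((sg s : ℝ) : ℂ) * ((nm k : ℝ) : ℂ)) *
      (Complex.I * ((sg s : ℝ) : ℂ) / ((nm k : ℝ) : ℂ)) = -1 := by
    have : (Complex.I * ((sg s : ℝ) : ℂ) * ((nm k : ℝ) : ℂ)) *
      (Complex.I * ((sg s : ℝ) : ℂ) / ((nm k : ℝ) : ℂ)) =
      (Complex.I * Complex.I) * (((sg s : ℝ) : ℂ) * ((sg s : ℝ) : ℂ)) := by field_simp
    rw [this, hs, Complex.I_mul_I]; ring
  have e4 : -(Complex.I * ((sg s * nm k : ℝ) : ℂ)) =
      -(Complex.I * ((sg s : ℝ) : ℂ) * ((nm k : ℝ) : ℂ)) := by push_cast; ring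
  rw [e4]
  set c := Complex.I * ((sg s : ℝ) : ℂ) * ((nm k : ℝ) : ℂ) with hc
  set b := Complex.I * ((sg s : ℝ) : ℂ) / ((nm k : ℝ) : ℂ) with hb
  set q := dt (kc k) v / ((nm k : ℝ) : ℂ) ^ 2 with hq
  have f1 : b • (dt (kc k) v • kc k - ((nm k : ℝ) : ℂ) ^ 2 • v) =
      (b * dt (kc k) v) • kc k - (b * ((nm k : ℝ) : ℂ) ^ 2) • v := by module
  rw [f1, e1, ← e2]
  have f2 : (-c) • ((1 / 2 : ℂ) • (v - q • kc k + b • cr (kc k) v)) =
      (1 / 2 : ℂ) • ((-(c * b)) • cr (kc k) v + (c * q) • kc k - c • v) := by module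
  rw [f2, e3]
  module

theorem hel_of (s : Bool) {k : K3} (hk : k ≠ 0) {w : E3} (h1 : dt (kc k) w = 0)
    (h2 : cr (kc k) w = (-(Complex.I * ((sg s * nm k : ℝ) : ℂ))) • w) :
    hel s k w = w ∧ hel (!s) k w = 0 := by
  have hn : ((nm k : ℝ) : ℂ) ≠ 0 := by exact_mod_cast (nm_pos hk).ne'
  have hs := sg_sq s
  have e3 : Complex.I * ((sg s : ℝ) : ℂ) / ((nm k : ℝ) : ℂ) *
      (-(Complex.I * ((sg s * nm k : ℝ) : ℂ))) = 1 := by
    have : Complex.I * ((sg s : ℝ) : ℂ) / ((nm k : ℝ) : ℂ) *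
      (-(Complex.I * ((sg s * nm k : ℝ) : ℂ))) =
      -((Complex.I * Complex.I) * (((sg s : ℝ) : ℂ) * ((sg s : ℝ) : ℂ))) := by
      push_cast; field_simp
    rw [this, hs, Complex.I_mul_I]; ring
  constructor
  · rw [hel_eq, h1, h2, smul_smul, e3]
    simp only [zero_div]
    module
  · have e4 : Complex.I * ((sg (!s) : ℝ) : ℂ) / ((nm k : ℝ) : ℂ) =
        -(Complex.I * ((sg s : ℝ) : ℂ) / ((nm k : ℝ) : ℂ)) := by
      rw [sg_not]; push_cast; ring
    rw [hel_eq, h1, h2, smul_smul, e4, neg_mul, e3]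
    simp only [zero_div]
    module

theorem hel_sum (k : K3) (v : E3) : hel true k v + hel false k v =
    v - (dt (kc k) v / ((nm k : ℝ) : ℂ) ^ 2) • kc k := by
  have e4 : Complex.I * ((sg false : ℝ) : ℂ) / ((nm k : ℝ) : ℂ) =
      -(Complex.I * ((sg true : ℝ) : ℂ) / ((nm k : ℝ) : ℂ)) := by
    simp [sg, neg_div]
  rw [hel_eq, hel_eq, e4]
  module

theorem cj_smul (c : ℂ) (v : E3) : cj (c • v) = star c • cj v := by
  ext j; simp [cj]

theorem cj_add (v w : E3) : cj (v + w) = cj v + cj w := by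
  ext j; simp [cj]

theorem cj_sub (v w : E3) : cj (v - w) = cj v - cj w := by
  ext j; simp [cj]

theorem cj_kc (k : K3) : cj (kc k) = kc k := by
  ext j; simp [cj, kc]

theorem kc_neg (k : K3) : kc (-k) = - kc k := by
  ext j; simp [kc]

theorem nm_neg (k : K3) : nm (-k) = nm k := by
  simp [nm]

theorem hel_cj (s : Bool) (k : K3) (v : E3) : hel s (-k) (cj v) = cj (hel s k v) := by
  rw [hel_eq, hel_eq, nm_neg, kc_neg, cj_smul, cj_add, cj_sub, cj_smul, cj_smul, cj_kc]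
  have e1 : dt (-kc k) (cj v) = - star (dt (kc k) v) := by
    simp [dt, kc, cj, Fin.sum_univ_three]
    try ring
  have e2 : cr (-kc k) (cj v) = - cj (cr (kc k) v) := by
    ext j; fin_cases j <;> simp [cr, cj, kc] <;> ring
  rw [e1, e2]
  have e3 : star (dt (kc k) v / ((nm k : ℝ) : ℂ) ^ 2) =
      star (dt (kc k) v) / ((nm k : ℝ) : ℂ) ^ 2 := by
    simp
  have e4 : star (Complex.I * ((sg s : ℝ) : ℂ) / ((nm k : ℝ) : ℂ)) =
      -(Complex.I * ((sg s : ℝ) : ℂ) / ((nm k : ℝ) : ℂ)) := by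
    simp; ring
  have e5 : star (1 / 2 : ℂ) = 1 / 2 := by simp
  rw [e3, e4, e5, neg_div]
  module

theorem hel_inner (s : Bool) (k : K3) (v w : E3) :
    inner ℂ (hel s k v) w = inner ℂ v (hel s k w) := by
  rw [hel_eq, hel_eq]
  simp only [inner_smul_left, inner_smul_right, inner_add_left, inner_add_right, inner_sub_left,
    inner_sub_right, inner_cr, inner_kc, inner_kc']
  have e4 : (starRingEnd ℂ) (Complex.I * ((sg s : ℝ) : ℂ) / ((nm k : ℝ) : ℂ)) =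
      -(Complex.I * ((sg s : ℝ) : ℂ) / ((nm k : ℝ) : ℂ)) := by
    simp; ring
  have e3 : (starRingEnd ℂ) (dt (kc k) v / ((nm k : ℝ) : ℂ) ^ 2) =
      star (dt (kc k) v) / ((nm k : ℝ) : ℂ) ^ 2 := by
    simp
  have e5 : (starRingEnd ℂ) (1 / 2 : ℂ) = 1 / 2 := by
    rw [show (1 / 2 : ℂ) = ((1 / 2 : ℝ) : ℂ) by norm_num, Complex.conj_ofReal]
  rw [e3, e4, e5]
  ring

theorem inner_self' (x : E3) : inner ℂ x x = ((‖x‖ : ℝ) : ℂ) ^ 2 := by
  rw [inner_self_eq_norm_sq_to_K]; rfl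

theorem hel_norm {k : K3} (hk : k ≠ 0) (v : E3) :
    ‖hel true k v‖ ^ 2 + ‖hel false k v‖ ^ 2 ≤ ‖v‖ ^ 2 := by
  have hidem : ∀ s, hel s k (hel s k v) = hel s k v := fun s =>
    (hel_of s hk (dt_hel s hk v) (cr_hel s hk v)).1
  have h1 : ∀ s, ((‖hel s k v‖ : ℂ)) ^ 2 = inner ℂ v (hel s k v) := by
    intro s
    rw [← inner_self', hel_inner, hidem]
  have h2 : ((‖hel true k v‖ : ℂ)) ^ 2 + ((‖hel false k v‖ : ℂ)) ^ 2 =
      ((‖v‖ : ℂ)) ^ 2 - ((‖dt (kc k) v‖ ^ 2 / nm k ^ 2 : ℝ) : ℂ) := by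
    rw [h1, h1, ← inner_add_right, hel_sum, inner_sub_right, inner_smul_right, inner_kc',
      ← inner_self']
    congr 1
    push_cast
    have h3 : dt (kc k) v * star (dt (kc k) v) = ((‖dt (kc k) v‖ : ℝ) : ℂ) ^ 2 := by
      rw [Complex.star_def, Complex.mul_conj, Complex.normSq_eq_norm_sq]; push_cast; rfl
    rw [← h3]
    ring
  have h3 : ‖hel true k v‖ ^ 2 + ‖hel false k v‖ ^ 2 = ‖v‖ ^ 2 - ‖dt (kc k) v‖ ^ 2 / nm k ^ 2 := by
    exact_mod_cast h2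
  rw [h3]
  have : 0 ≤ ‖dt (kc k) v‖ ^ 2 / nm k ^ 2 := by positivity
  linarith

theorem hel_main : S_HEL := by
  intro s k hk v w c
  have h := hel_of s hk (dt_hel s hk v) (cr_hel s hk v)
  refine ⟨hel_add s k v w, hel_smul s k v c, dt_hel s hk v, cr_hel s hk v, h.1, h.2, ?_,
    hel_cj s k v, hel_inner s k v w, hel_norm hk v⟩
  intro h0
  rw [hel_sum, h0]
  simp

end Pool.Agent.W347.HD
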